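import Pool.Agent.V11223.ZAM.MV

/-!
# The subexponential bound
-/

namespace V11223.ZAM

open Classical Real

theorem log16 (n : ℕ) (hn : 16 ≤ n) : 2.72 < Real.log n := by
  have h1 : Real.log 16 ≤ Real.log n :=
    Real.log_le_log (by norm_num) (by exact_mod_cast hn)
  have h2 : Real.log 16 = 4 * Real.log 2 := by
    rw [show (16 : ℝ) = 2 ^ 4 by norm_num, Real.log_pow]; norm_num
  have h3 := Real.log_two_gt_d9
  linarith

theorem exp_one_lt : Real.exp 1 < 2.72 := by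
  have := Real.exp_one_lt_d9
  linarith

theorem loglog16 (n : ℕ) (hn : 16 ≤ n) : 1 < Real.log (Real.log n) := by
  have h1 := log16 n hn
  rw [Real.lt_log_iff_exp_lt (by linarith)]
  linarith [exp_one_lt]

/-- choice of `t` -/
theorem exists_t (z : ℝ) (hz : 1 ≤ z) : ∃ t : ℕ, z ≤ (9 : ℝ) ^ t ∧ (9 : ℝ) ^ t ≤ 9 * z := by
  have hex : ∃ t : ℕ, z ≤ (9 : ℝ) ^ t := by
    obtain ⟨t, ht⟩ := pow_unbounded_of_one_lt z (by norm_num : (1 : ℝ) < 9)
    exact ⟨t, ht.le⟩
  let t := Nat.find hex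
  have ht : z ≤ (9 : ℝ) ^ t := Nat.find_spec hex
  refine ⟨t, ht, ?_⟩
  rcases Nat.eq_zero_or_pos t with h0 | h0
  · rw [h0, pow_zero]; linarith
  · have h1 : ¬ z ≤ (9 : ℝ) ^ (t - 1) := Nat.find_min hex (by omega)
    push Not at h1
    have h2 : (9 : ℝ) ^ t = 9 * 9 ^ (t - 1) := by
      rw [← pow_succ']; congr 1; omega
    rw [h2]
    linarith

theorem exists_s (t : ℕ) : ∃ s : ℕ, 3 ^ t < 2 ^ s ∧ 2 ^ s ≤ 2 * 3 ^ t := by
  refine ⟨Nat.log 2 (3 ^ t) + 1, Nat.lt_pow_succ_log_self (by norm_num) _, ?_⟩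
  have : 2 ^ Nat.log 2 (3 ^ t) ≤ 3 ^ t := Nat.pow_log_le_self 2 (by positivity)
  rw [pow_succ]
  omega

theorem real_bound (L l : ℝ) (hL : 2.72 < L) (hl : l = Real.log L) (hl1 : 1 < l) (t : ℕ)
    (ht : (9 : ℝ) ^ t ≤ 9 * (L / l + 1)) (h r : ℝ) (hh1 : 1 ≤ h) (hr1 : 1 ≤ r)
    (hh : h ≤ 2 * 9 ^ t) (hr : r ≤ L + 1) :
    (h * r) ^ (2 * 3 ^ t) ≤ Real.exp (60 * Real.sqrt (L * l)) := by
  have hLl : l ≤ L := by
    rw [hl]
    have := Real.log_le_sub_one_of_pos (by linarith : 0 < L)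
    linarith
  have hl0 : 0 < l := by linarith
  have hL0 : 0 < L := by linarith
  have h1 : 1 ≤ L / l := by rw [le_div_iff₀ hl0]; linarith
  have h2 : L / l ≤ L := by
    rw [div_le_iff₀ hl0]
    nlinarith
  -- `h r ≤ 72 L^2 ≤ L^7`
  have h3 : h ≤ 36 * L := by
    calc h ≤ 2 * 9 ^ t := hh
      _ ≤ 2 * (9 * (L / l + 1)) := by linarith
      _ ≤ 36 * L := by linarith
  have h4 : r ≤ 2 * L := by linarith
  have h5 : h * r ≤ 72 * L ^ 2 := by
    calc h * r ≤ (36 * L) * (2 * L) := mul_le_mul h3 h4 (by linarith) (by linarith)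
      _ = 72 * L ^ 2 := by ring
  have h6 : (72 : ℝ) ≤ L ^ 5 := by
    calc (72 : ℝ) ≤ (2.72 : ℝ) ^ 5 := by norm_num
      _ ≤ L ^ 5 := by gcongr
  have h7 : h * r ≤ L ^ 7 := by
    calc h * r ≤ 72 * L ^ 2 := h5
      _ ≤ L ^ 5 * L ^ 2 := by gcongr
      _ = L ^ 7 := by ring
  have h8 : h * r ≤ Real.exp (7 * l) := by
    have : Real.exp (7 * l) = L ^ 7 := by
      rw [hl, show (7 : ℝ) * Real.log L = ((7 : ℕ) : ℝ) * Real.log L by norm_num,
        Real.exp_nat_mul, Real.exp_log hL0]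
    rw [this]; exact h7
  have h9 : (3 : ℝ) ^ t ≤ Real.sqrt (18 * (L / l)) := by
    apply Real.le_sqrt_of_sq_le
    calc ((3 : ℝ) ^ t) ^ 2 = 9 ^ t := by rw [← pow_mul, mul_comm, pow_mul]; norm_num
      _ ≤ 9 * (L / l + 1) := ht
      _ ≤ 18 * (L / l) := by linarith
  have h10 : l * Real.sqrt (18 * (L / l)) ≤ 4.25 * Real.sqrt (L * l) := by
    have e1 : l * Real.sqrt (18 * (L / l)) = Real.sqrt (18 * (L * l)) := by
      have : l = Real.sqrt (l ^ 2) := (Real.sqrt_sq hl0.le).symm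
      conv_lhs => rw [this]
      rw [← Real.sqrt_mul (by positivity)]
      congr 1
      field_simp
      rw [Real.sqrt_sq hl0.le]
    rw [e1, Real.sqrt_mul (by norm_num)]
    apply mul_le_mul_of_nonneg_right _ (Real.sqrt_nonneg _)
    rw [Real.sqrt_le_left (by norm_num)]
    norm_num
  have hpos : 0 < h * r := by nlinarith
  calc (h * r) ^ (2 * 3 ^ t) ≤ (Real.exp (7 * l)) ^ (2 * 3 ^ t) := by gcongr
    _ = Real.exp (((2 * 3 ^ t : ℕ) : ℝ) * (7 * l)) := by rw [Real.exp_nat_mul]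
    _ ≤ Real.exp (60 * Real.sqrt (L * l)) := by
      apply Real.exp_le_exp.2
      push_cast
      calc 2 * (3 : ℝ) ^ t * (7 * l) = 14 * (l * 3 ^ t) := by ring
        _ ≤ 14 * (l * Real.sqrt (18 * (L / l))) := by gcongr
        _ ≤ 14 * (4.25 * Real.sqrt (L * l)) := by linarith
        _ ≤ 60 * Real.sqrt (L * l) := by
          have := Real.sqrt_nonneg (L * l)
          linarith

theorem main_bound {X Y : Type} [Fintype Y] (f : X → Y → Bool) (n : ℕ) (hn : 16 ≤ n)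
    (hY : Fintype.card Y ≤ n) :
    ∃ P : AMProtocol X Y, P.IsZAM f ∧
      (P.cost : ℝ) ≤ Real.exp (62 * Real.sqrt (Real.log n * Real.log (Real.log n))) := by
  set L := Real.log n with hLdef
  set l := Real.log L with hldef
  have hL : 2.72 < L := log16 n hn
  have hl1 : 1 < l := loglog16 n hn
  have hl0 : 0 < l := by linarith
  have hL0 : 0 < L := by linarith
  have hLl : l ≤ L := by
    have := Real.log_le_sub_one_of_pos hL0
    linarith
  obtain ⟨t, ht1, ht2⟩ := exists_t (L / l + 1) (by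
    have : 0 ≤ L / l := by positivity
    linarith)
  obtain ⟨s, hs1, hs2⟩ := exists_s t
  set r := ⌈L⌉₊ with hr
  have hr1 : L ≤ r := Nat.le_ceil L
  have hr2 : (r : ℝ) ≤ L + 1 := (Nat.ceil_lt_add_one hL0.le).le
  set h := 2 ^ s * 3 ^ t - 1 with hh
  have h9 : 3 ^ t * 3 ^ t = 9 ^ t := by rw [← mul_pow]; norm_num
  have hA : 3 ^ t * 3 ^ t < 2 ^ s * 3 ^ t := Nat.mul_lt_mul_of_pos_right hs1 (by positivity)
  have hB : 2 ^ s * 3 ^ t ≤ 2 * (3 ^ t * 3 ^ t) := by
    calc 2 ^ s * 3 ^ t ≤ (2 * 3 ^ t) * 3 ^ t := Nat.mul_le_mul_right _ hs2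
      _ = 2 * (3 ^ t * 3 ^ t) := by ring
  have hh1 : 9 ^ t ≤ h := by omega
  have hh2 : h ≤ 2 * 9 ^ t := by omega
  have hh1' : (9 : ℝ) ^ t ≤ h := by exact_mod_cast hh1
  have hh2' : (h : ℝ) ≤ 2 * 9 ^ t := by exact_mod_cast hh2
  have hnr : n ≤ r ^ h := by
    have h1 : (n : ℝ) ≤ (r : ℝ) ^ h := by
      have hn0 : (0 : ℝ) < n := by
        have : 0 < n := by omega
        exact_mod_cast this
      calc (n : ℝ) = Real.exp L := (Real.exp_log hn0).symm
        _ = Real.exp ((L / l) * l) := by rw [div_mul_cancel₀ _ hl0.ne']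
        _ ≤ Real.exp ((h : ℝ) * l) := by
          apply Real.exp_le_exp.2
          apply mul_le_mul_of_nonneg_right _ hl0.le
          linarith
        _ = L ^ h := by rw [Real.exp_nat_mul, hldef, Real.exp_log hL0]
        _ ≤ (r : ℝ) ^ h := by gcongr
    exact_mod_cast h1
  obtain ⟨P, hP, hc⟩ := cost_bound f s t r (hY.trans hnr)
  refine ⟨P, hP, ?_⟩
  have hh1r : (1 : ℝ) ≤ h := le_trans (one_le_pow₀ (by norm_num)) hh1'
  have hrr : (1 : ℝ) ≤ r := by linarith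
  have hb := real_bound L l hL hldef hl1 t ht2 h r hh1r hrr hh2' hr2
  have hdim : ∀ D : ℕ, D ≤ 2 * 3 ^ t →
      ((h.choose D * r ^ D : ℕ) : ℝ) ≤ Real.exp (60 * Real.sqrt (L * l)) := by
    intro D hD
    have h1 : h.choose D ≤ h ^ D := Nat.choose_le_pow _ _
    have h2 : h.choose D * r ^ D ≤ (h * r) ^ (2 * 3 ^ t) := by
      calc h.choose D * r ^ D ≤ h ^ D * r ^ D := Nat.mul_le_mul_right _ h1
        _ = (h * r) ^ D := (mul_pow _ _ _).symm
        _ ≤ (h * r) ^ (2 * 3 ^ t) := by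
          apply Nat.pow_le_pow_right _ hD
          have : 1 ≤ h := by exact_mod_cast hh1r
          have : 1 ≤ r := by exact_mod_cast hrr
          positivity
    calc ((h.choose D * r ^ D : ℕ) : ℝ) ≤ (((h * r) ^ (2 * 3 ^ t) : ℕ) : ℝ) := by
          exact_mod_cast h2
      _ = ((h : ℝ) * r) ^ (2 * 3 ^ t) := by push_cast; ring
      _ ≤ _ := hb
  have hd1 := hdim (3 ^ t - 1) (by omega)
  have hd2 := hdim (2 ^ s - 1) (by omega)
  have hc' : (P.cost : ℝ) ≤ 1 + 2 * ((h.choose (3 ^ t - 1) * r ^ (3 ^ t - 1) : ℕ) : ℝ) +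
      2 * ((h.choose (2 ^ s - 1) * r ^ (2 ^ s - 1) : ℕ) : ℝ) := by
    exact_mod_cast hc
  have hs : 1 ≤ Real.sqrt (L * l) := by
    rw [Real.one_le_sqrt]
    nlinarith
  have he1 : (1 : ℝ) ≤ Real.exp (60 * Real.sqrt (L * l)) := Real.one_le_exp (by positivity)
  have he5 : (5 : ℝ) ≤ Real.exp (2 * Real.sqrt (L * l)) := by
    have h1 : (2.7182818283 : ℝ) < Real.exp 1 := Real.exp_one_gt_d9
    calc (5 : ℝ) ≤ 2.7182818283 * 2.7182818283 := by norm_num
      _ ≤ Real.exp 1 * Real.exp 1 := by gcongr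
      _ = Real.exp 2 := by rw [← Real.exp_add]; norm_num
      _ ≤ Real.exp (2 * Real.sqrt (L * l)) := by
        apply Real.exp_le_exp.2; linarith
  calc (P.cost : ℝ) ≤ 5 * Real.exp (60 * Real.sqrt (L * l)) := by linarith
    _ ≤ Real.exp (2 * Real.sqrt (L * l)) * Real.exp (60 * Real.sqrt (L * l)) := by gcongr
    _ = Real.exp (62 * Real.sqrt (L * l)) := by rw [← Real.exp_add]; congr 1; ring

theorem ZAM_le {X Y : Type} (f : X → Y → Bool) (P : AMProtocol X Y) (hP : P.IsZAM f) :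
    ZAM f ≤ P.cost := Nat.sInf_le ⟨P, hP, rfl⟩

theorem ZAM_bound {X Y : Type} [Fintype Y] (f : X → Y → Bool) (n : ℕ) (hn : 16 ≤ n)
    (hY : Fintype.card Y ≤ n) :
    (ZAM f : ℝ) ≤ Real.exp (62 * Real.sqrt (Real.log n * Real.log (Real.log n))) := by
  obtain ⟨P, hP, hc⟩ := main_bound f n hn hY
  exact le_trans (by exact_mod_cast ZAM_le f P hP) hc

open Filter in
theorem eventually_le (ε : ℝ) (hε : 0 < ε) :
    ∀ᶠ n : ℕ in atTop,
      Real.exp (62 * Real.sqrt (Real.log n * Real.log (Real.log n))) ≤ (n : ℝ) ^ ε := by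
  have h1 : ∀ᶠ x : ℝ in atTop, Real.log x ≤ (ε / 62) ^ 2 * x := by
    have := Real.isLittleO_log_id_atTop.def (by positivity : 0 < (ε / 62) ^ 2)
    filter_upwards [this, eventually_ge_atTop 0] with x hx hx0
    have h2 : |Real.log x| ≤ (ε / 62) ^ 2 * |x| := by simpa using hx
    rw [abs_of_nonneg hx0] at h2
    exact (le_abs_self _).trans h2
  have h2 : Tendsto (fun n : ℕ => Real.log (n : ℝ)) atTop atTop :=
    Real.tendsto_log_atTop.comp tendsto_natCast_atTop_atTop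
  filter_upwards [h2.eventually h1, eventually_ge_atTop 16] with n hn hn16
  have hL := log16 n hn16
  have hl := loglog16 n hn16
  have hn0 : (0 : ℝ) < n := by
    have : 0 < n := by omega
    exact_mod_cast this
  rw [Real.rpow_def_of_pos hn0]
  apply Real.exp_le_exp.2
  have h3 : Real.sqrt (Real.log n * Real.log (Real.log n)) ≤ ε / 62 * Real.log n := by
    rw [Real.sqrt_le_left (by positivity)]
    calc Real.log n * Real.log (Real.log n) ≤ Real.log n * ((ε / 62) ^ 2 * Real.log n) := by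
          gcongr
      _ = (ε / 62 * Real.log n) ^ 2 := by ring
  linarith

end V11223.ZAM
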