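import Pool.Agent.V11223.ZAM.Proto

/-!
# Matching vectors and the resulting protocol
-/

namespace V11223.ZAM

open Classical

/-! ### Binomials modulo a prime -/

theorem choose_prime_pow (p : ℕ) [hp : Fact p.Prime] (s : ℕ) :
    ∀ k : ℕ, ((k.choose (p ^ s - 1) : ℕ) : ZMod p) = if p ^ s ∣ k + 1 then 1 else 0 := by
  have hp2 : 2 ≤ p := hp.out.two_le
  induction s with
  | zero => intro k; simp
  | succ s ih =>
    intro k
    have hps : 0 < p ^ s := by positivity
    have e0 : p ^ (s + 1) - 1 = p * (p ^ s - 1) + (p - 1) := by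
      have : p ^ (s + 1) = p * (p ^ s - 1) + p := by
        rw [pow_succ, Nat.mul_sub, mul_one, mul_comm]
        have : p ≤ p * p ^ s := Nat.le_mul_of_pos_right _ hps
        omega
      omega
    have e1 : (p ^ (s + 1) - 1) % p = p - 1 := by
      rw [e0, Nat.mul_add_mod]
      exact Nat.mod_eq_of_lt (by omega)
    have e2 : (p ^ (s + 1) - 1) / p = p ^ s - 1 := by
      rw [e0, Nat.mul_add_div (by omega)]
      rw [Nat.div_eq_of_lt (by omega : p - 1 < p)]
      simp
    have h1 := Choose.choose_modEq_choose_mod_mul_choose_div_nat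
      (n := k) (k := p ^ (s + 1) - 1) (p := p)
    rw [e1, e2] at h1
    have h2 := (ZMod.natCast_eq_natCast_iff _ _ _).2 h1
    rw [h2]
    push_cast
    rw [ih]
    have hk : p * (k / p) + k % p = k := Nat.div_add_mod k p
    have hkl : k % p < p := Nat.mod_lt _ (by omega)
    by_cases hc : k % p = p - 1
    · rw [hc, Nat.choose_self]
      have hk1 : k + 1 = (k / p + 1) * p := by
        rw [hc] at hk
        have : (k / p + 1) * p = p * (k / p) + p := by ring
        omega
      have : p ^ s ∣ k / p + 1 ↔ p ^ (s + 1) ∣ k + 1 := by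
        rw [hk1, pow_succ]
        exact (Nat.mul_dvd_mul_iff_right (by omega)).symm
      simp [this]
    · rw [Nat.choose_eq_zero_of_lt (by omega)]
      have : ¬ p ^ (s + 1) ∣ k + 1 := by
        intro hd
        have h3 : p ∣ k + 1 := (dvd_pow_self p (by omega)).trans hd
        have h4 : p ∣ k % p + 1 := by
          have h5 : k + 1 = p * (k / p) + (k % p + 1) := by omega
          rw [h5] at h3
          exact (Nat.dvd_add_right (Dvd.intro _ rfl)).1 h3
        have := Nat.le_of_dvd (by omega) h4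
        omega
      simp [this]

/-! ### Matching vectors -/

/-- Coordinates of the matching vectors: a `D`-subset `S` of the positions and a word on `S`. -/
abbrev Coord (h r D : ℕ) : Type :=
  Σ S : {S : Finset (Fin h) // S.card = D}, (S.1 → Fin r)

theorem card_Coord (h r D : ℕ) : Fintype.card (Coord h r D) = h.choose D * r ^ D := by
  rw [Fintype.card_sigma]
  have : ∀ S : {S : Finset (Fin h) // S.card = D}, Fintype.card (S.1 → Fin r) = r ^ D := by
    intro S
    rw [Fintype.card_fun, Fintype.card_fin, Fintype.card_coe, S.2]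
  rw [Finset.sum_congr rfl (fun S _ => this S), Finset.sum_const, smul_eq_mul]
  congr 1
  rw [Finset.card_univ, Fintype.card_finset_len, Fintype.card_fin]

/-- the `0/1` matching vector of the string `u` -/
noncomputable def vec {h r D : ℕ} (K : Type) [Zero K] [One K] (u : Fin h → Fin r)
    (c : Coord h r D) : K :=
  if (fun i : c.1.1 => u i) = c.2 then 1 else 0

theorem vec_inner {h r D : ℕ} (K : Type) [CommRing K] (u v : Fin h → Fin r) :
    ∑ c : Coord h r D, vec K u c * vec K v c =
      (((Finset.univ.filter fun i => u i = v i).card.choose D : ℕ) : K) := by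
  rw [Fintype.sum_sigma]
  have h1 : ∀ S : {S : Finset (Fin h) // S.card = D},
      ∑ σ : (S.1 → Fin r), vec K u (⟨S, σ⟩ : Coord h r D) * vec K v (⟨S, σ⟩ : Coord h r D) =
        if S.1 ⊆ (Finset.univ.filter fun i => u i = v i) then 1 else 0 := by
    intro S
    unfold vec
    simp only [ite_mul, one_mul, zero_mul]
    rw [Finset.sum_ite_eq]
    simp only [Finset.mem_univ, if_true]
    congr 1
    apply propext
    constructor
    · intro he i hi
      have := congrFun he ⟨i, hi⟩
      simp only [Finset.mem_filter, Finset.mem_univ, true_and]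
      exact this.symm
    · intro hs
      funext i
      have := hs i.2
      simp only [Finset.mem_filter, Finset.mem_univ, true_and] at this
      exact this.symm
  rw [Finset.sum_congr rfl (fun S _ => h1 S)]
  rw [Finset.sum_boole, ← Finset.card_powersetCard]
  congr 1
  apply Finset.card_bij (fun S _ => S.1)
  · intro S hS
    rw [Finset.mem_powersetCard]
    exact ⟨(Finset.mem_filter.1 hS).2, S.2⟩
  · intro S _ T _ he
    exact Subtype.ext he
  · intro S hS
    rw [Finset.mem_powersetCard] at hS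
    exact ⟨⟨S, hS.2⟩, by simp [hS.1], rfl⟩

/-! ### The field with four elements -/

instance : Fact (Nat.Prime 2) := ⟨Nat.prime_two⟩
instance : Fact (Nat.Prime 3) := ⟨Nat.prime_three⟩

/-- The field with four elements. -/
abbrev F4 : Type := GaloisField 2 2

theorem card_F4 : Nat.card F4 = 4 := by
  rw [GaloisField.card 2 2 (by norm_num)]; norm_num

theorem exists_char : ∃ ω : AddChar (ZMod 3) F4, ω 1 ≠ 1 := by
  have : Fintype F4 := Fintype.ofFinite _
  have hc : Fintype.card F4 = 4 := by rw [← Nat.card_eq_fintype_card, card_F4]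
  obtain ⟨g, hg0, hg1⟩ : ∃ g : F4, g ≠ 0 ∧ g ≠ 1 := by
    by_contra hcon
    push Not at hcon
    have h1 : (Finset.univ : Finset F4) ⊆ {0, 1} := by
      intro g _
      simp only [Finset.mem_insert, Finset.mem_singleton]
      by_cases h0 : g = 0
      · exact Or.inl h0
      · exact Or.inr (hcon g h0)
    have h2 := Finset.card_le_card h1
    rw [Finset.card_univ, hc] at h2
    have h3 : ({0, 1} : Finset F4).card ≤ 2 := Finset.card_le_two
    omega
  have hg3 : g ^ 3 = 1 := by
    have := FiniteField.pow_card_sub_one_eq_one g hg0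
    rw [hc] at this
    exact this
  refine ⟨AddChar.zmodChar 3 hg3, ?_⟩
  have : (AddChar.zmodChar 3 hg3) ((1 : ℕ) : ZMod 3) = g ^ 1 := AddChar.zmodChar_apply' hg3 1
  rw [Nat.cast_one, pow_one] at this
  rw [this]
  exact hg1

theorem exists_lam : ∃ l : F4 →+ ZMod 2, l 1 = 1 := by
  have h1 : ∃ f : Module.Dual (ZMod 2) F4, f 1 ≠ 0 := by
    by_contra hcon
    push Not at hcon
    exact one_ne_zero ((Module.forall_dual_apply_eq_zero_iff (ZMod 2) (1 : F4)).1 hcon)
  obtain ⟨f, hf⟩ := h1
  refine ⟨f.toAddMonoidHom, ?_⟩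
  have h2 : ∀ a : ZMod 2, a ≠ 0 → a = 1 := by decide
  exact h2 _ hf

/-! ### The protocol -/

theorem mv_protocol {X Y : Type} [Fintype Y] (f : X → Y → Bool) (S2 S3 : Type) [Fintype S2]
    [Fintype S3] (a : Y → S2 → F4) (b : Y → S3 → ZMod 3)
    (h2 : ∀ y, ∑ s, a y s * a y s = 1) (h3 : ∀ y, ∑ s, b y s * b y s = 1)
    (h23 : ∀ y j, y ≠ j → ∑ s, a y s * a j s = 0 ∨ ∑ s, b y s * b j s = 0) :
    ∃ P : AMProtocol X Y, P.IsZAM f ∧
      P.m = 2 * 3 ^ Fintype.card S3 * 4 ^ Fintype.card S2 := by
  obtain ⟨ω, hω⟩ := exists_char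
  obtain ⟨l, hl⟩ := exists_lam
  have hω0 : ∀ t, ω t ≠ 0 := by
    intro t h0
    have h1 : ω (t + -t) = ω t * ω (-t) := AddChar.map_add_eq_mul ω t (-t)
    rw [h0, zero_mul, add_neg_cancel, AddChar.map_zero_eq_one] at h1
    exact one_ne_zero h1
  have hκ : ∀ t, ω t - ω (t - 1) ≠ 0 := by
    intro t
    have : ω t = ω (t - 1) * ω 1 := by rw [← AddChar.map_add_eq_mul]; congr 1; ring
    rw [this]
    have h4 : ω (t - 1) * ω 1 - ω (t - 1) = ω (t - 1) * (ω 1 - 1) := by ring
    rw [h4]
    exact mul_ne_zero (hω0 _) (sub_ne_zero.2 hω)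
  let ip : (S3 → ZMod 3) → Y → ZMod 3 := fun w j => ∑ s, w s * b j s
  let κ : Y → (S3 → ZMod 3) → F4 := fun y w => ω (ip w y) - ω (ip w y - 1)
  let F : X → (S3 → ZMod 3) → (S2 → F4) := fun x w s =>
    ∑ j, (if f x j then 1 else 0) * ω (ip w j) * a j s
  let χ : Y → (S3 → ZMod 3) → (S2 → F4) →+ ZMod 2 := fun y w =>
    l.comp ((AddMonoidHom.mulLeft (κ y w)⁻¹).comp
      { toFun := fun z => ∑ s, a y s * z s
        map_zero' := by simp
        map_add' := by
          intro z z'
          simp only [Pi.add_apply, mul_add, Finset.sum_add_distrib] })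
  have hip : ∀ w y j, ip (w - b y) j = ip w j - ∑ s, b y s * b j s := by
    intro w y j
    simp only [ip, Pi.sub_apply, sub_mul, Finset.sum_sub_distrib]
  have hmain : ∀ x y w, ∑ s, a y s * (F x w - F x (w - b y)) s =
      (if f x y then 1 else 0) * κ y w := by
    intro x y w
    have e1 : ∀ s, a y s * (F x w - F x (w - b y)) s = ∑ j,
        (if f x j then 1 else 0) * (ω (ip w j) - ω (ip w j - ∑ s, b y s * b j s)) *
          (a y s * a j s) := by
      intro s
      simp only [F, Pi.sub_apply]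
      rw [← Finset.sum_sub_distrib, Finset.mul_sum]
      apply Finset.sum_congr rfl
      intro j _
      rw [hip]
      ring
    rw [Finset.sum_congr rfl (fun s _ => e1 s), Finset.sum_comm]
    rw [Finset.sum_eq_single y]
    · rw [← Finset.mul_sum, h2, h3, mul_one]
    · intro j _ hj
      rw [← Finset.mul_sum]
      rcases h23 y j (Ne.symm hj) with h | h
      · rw [h, mul_zero]
      · rw [h, sub_zero, sub_self, mul_zero, zero_mul]
    · intro h; exact absurd (Finset.mem_univ _) h
  obtain ⟨P, hP, hPm⟩ := exists_protocol f (S3 → ZMod 3) (S2 → F4) F b χ (by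
    intro x y w
    have e : χ y w (F x w - F x (w - b y)) =
        l ((κ y w)⁻¹ * ∑ s, a y s * (F x w - F x (w - b y)) s) := rfl
    rw [e, hmain]
    by_cases hf : f x y = true
    · rw [if_pos hf, if_pos hf, one_mul]
      rw [inv_mul_cancel₀ (hκ _), hl]
    · rw [if_neg hf, if_neg hf, zero_mul, mul_zero, map_zero])
  refine ⟨P, hP, ?_⟩
  rw [hPm, Nat.card_fun, Nat.card_fun, card_F4, Nat.card_eq_fintype_card (α := S3),
    Nat.card_eq_fintype_card (α := S2)]
  have : Nat.card (ZMod 3) = 3 := by simp [Nat.card_eq_fintype_card]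
  rw [this]

/-- The protocol with parameters `s, t, r`. -/
theorem param_protocol {X Y : Type} [Fintype Y] (f : X → Y → Bool) (s t r : ℕ)
    (hY : Fintype.card Y ≤ r ^ (2 ^ s * 3 ^ t - 1)) :
    ∃ P : AMProtocol X Y, P.IsZAM f ∧
      P.m = 2 * 3 ^ ((2 ^ s * 3 ^ t - 1).choose (3 ^ t - 1) * r ^ (3 ^ t - 1)) *
        4 ^ ((2 ^ s * 3 ^ t - 1).choose (2 ^ s - 1) * r ^ (2 ^ s - 1)) := by
  set h := 2 ^ s * 3 ^ t - 1 with hh
  have hpos : 0 < 2 ^ s * 3 ^ t := by positivity
  have hh1 : h + 1 = 2 ^ s * 3 ^ t := by omega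
  have hcard : Fintype.card Y ≤ Fintype.card (Fin h → Fin r) := by
    rw [Fintype.card_fun, Fintype.card_fin, Fintype.card_fin]; exact hY
  obtain ⟨enc⟩ := Function.Embedding.nonempty_of_card_le hcard
  have hself : ∀ u : Fin h → Fin r, (Finset.univ.filter fun i => u i = u i).card = h := by
    intro u; simp
  have hlt : ∀ y j : Y, y ≠ j →
      (Finset.univ.filter fun i => enc y i = enc j i).card < h := by
    intro y j hyj
    have h1 : (Finset.univ.filter fun i => enc y i = enc j i) ⊂ Finset.univ := by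
      rw [Finset.filter_ssubset]
      by_contra hcon
      push Not at hcon
      exact hyj (enc.injective (funext fun i => hcon i (Finset.mem_univ _)))
    have := Finset.card_lt_card h1
    simpa using this
  have hF4 : CharP F4 2 := inferInstance
  have key2 : ∀ k : ℕ, ((k.choose (2 ^ s - 1) : ℕ) : F4) = if 2 ^ s ∣ k + 1 then 1 else 0 := by
    intro k
    have h1 := choose_prime_pow 2 s k
    have h2 : (((k.choose (2 ^ s - 1) : ℕ) : ZMod 2).cast : F4) =
        ((if 2 ^ s ∣ k + 1 then (1 : ZMod 2) else 0).cast : F4) := by rw [h1]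
    have h3 := congrArg (algebraMap (ZMod 2) F4) h1
    rw [map_natCast] at h3
    rw [h3]
    split_ifs <;> simp
  obtain ⟨P, hP, hPm⟩ := mv_protocol f (Coord h r (2 ^ s - 1)) (Coord h r (3 ^ t - 1))
    (fun y => vec F4 (enc y)) (fun y => vec (ZMod 3) (enc y))
    (by
      intro y
      rw [vec_inner, hself, key2, hh1]
      simp)
    (by
      intro y
      rw [vec_inner, hself, choose_prime_pow, hh1]
      simp)
    (by
      intro y j hyj
      rw [vec_inner, vec_inner, key2, choose_prime_pow]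
      have h1 := hlt y j hyj
      set k := (Finset.univ.filter fun i => enc y i = enc j i).card with hk
      by_cases h2 : 2 ^ s ∣ k + 1
      · by_cases h3 : 3 ^ t ∣ k + 1
        · exfalso
          have hcop : Nat.Coprime (2 ^ s) (3 ^ t) :=
            Nat.Coprime.pow _ _ (by norm_num)
          have h4 := hcop.mul_dvd_of_dvd_of_dvd h2 h3
          have h5 := Nat.le_of_dvd (by omega) h4
          omega
        · right; simp [h3]
      · left; simp [h2])
  refine ⟨P, hP, ?_⟩
  rw [hPm, card_Coord, card_Coord]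

theorem cost_bound {X Y : Type} [Fintype Y] (f : X → Y → Bool) (s t r : ℕ)
    (hY : Fintype.card Y ≤ r ^ (2 ^ s * 3 ^ t - 1)) :
    ∃ P : AMProtocol X Y, P.IsZAM f ∧
      P.cost ≤ 1 + 2 * ((2 ^ s * 3 ^ t - 1).choose (3 ^ t - 1) * r ^ (3 ^ t - 1)) +
        2 * ((2 ^ s * 3 ^ t - 1).choose (2 ^ s - 1) * r ^ (2 ^ s - 1)) := by
  obtain ⟨P, hP, hm⟩ := param_protocol f s t r hY
  refine ⟨P, hP, ?_⟩
  unfold AMProtocol.cost
  apply Nat.clog_le_of_le_pow
  rw [hm, pow_add, pow_add, pow_one]
  have h1 : ∀ A : ℕ, 3 ^ A ≤ 2 ^ (2 * A) := by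
    intro A
    rw [pow_mul]; exact Nat.pow_le_pow_left (by norm_num) _
  have h2 : ∀ B : ℕ, 4 ^ B = 2 ^ (2 * B) := by
    intro B
    rw [pow_mul]; norm_num
  rw [h2]
  exact Nat.mul_le_mul_right _ (Nat.mul_le_mul_left _ (h1 _))

end V11223.ZAM
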