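import Mathlib

/-!
# Zero-information Arthur–Merlin protocols (definitions)

Private-coin Arthur–Merlin protocols given by finitely many rectangles, unambiguity,
zero-information, the complexity measure `ZAM`, and the function `INDEX_n`.
-/

namespace V11223.ZAM

/-- A private-coin AM protocol: finite nonempty sets `R`, `Q` of private coins of Alice and
Bob and `m` rectangles `τ_i = A_i × B_i ⊆ (X × R) × (Y × Q)`. -/
structure AMProtocol (X Y : Type) where
  m : ℕ
  R : Type
  Q : Type
  finR : Finite R
  finQ : Finite Q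
  neR : Nonempty R
  neQ : Nonempty Q
  A : Fin m → Set (X × R)
  B : Fin m → Set (Y × Q)

namespace AMProtocol

variable {X Y : Type} (P : AMProtocol X Y)

/-- The rectangle `τ_i = A_i × B_i`. -/
def rect (i : Fin P.m) : Set ((X × P.R) × (Y × P.Q)) := P.A i ×ˢ P.B i

/-- Probability of an event over independent uniform `r ∈ R`, `q ∈ Q`. -/
noncomputable def prob (E : P.R → P.Q → Prop) : ℚ :=
  (Nat.card {p : P.R × P.Q // E p.1 p.2} : ℚ) / (Nat.card (P.R × P.Q) : ℚ)

/-- Acceptance probability on `(x, y)`. -/
noncomputable def accProb (x : X) (y : Y) : ℚ :=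
  P.prob fun r q => ∃ i, ((x, r), (y, q)) ∈ P.rect i

/-- `P` is a protocol for `f`: acceptance probability `1` on 1-inputs and at most `1/2` on
0-inputs. -/
def Computes (f : X → Y → Bool) : Prop :=
  (∀ x y, f x y = true → P.accProb x y = 1) ∧ (∀ x y, f x y = false → P.accProb x y ≤ 1 / 2)

/-- Unambiguity: on a 1-input at most one rectangle accepts, for all coins. -/
def Unambiguous (f : X → Y → Bool) : Prop :=
  ∀ x y, f x y = true → ∀ r q i j,
    ((x, r), (y, q)) ∈ P.rect i → ((x, r), (y, q)) ∈ P.rect j → i = j

/-- `IsOutcome x y r q o`: the outcome `o` (`some i`, or `none` for `⊥`) occurs, i.e. `i`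
is an accepting rectangle, resp. there is no accepting rectangle. -/
def IsOutcome (x : X) (y : Y) (r : P.R) (q : P.Q) : Option (Fin P.m) → Prop
  | some i => ((x, r), (y, q)) ∈ P.rect i
  | none => ∀ i, ((x, r), (y, q)) ∉ P.rect i

/-- Zero-information: the distribution of the outcome is the same on all 1-inputs. -/
def ZeroInformation (f : X → Y → Bool) : Prop :=
  ∀ x y x' y', f x y = true → f x' y' = true → ∀ o : Option (Fin P.m),
    (P.prob fun r q => P.IsOutcome x y r q o) = P.prob fun r q => P.IsOutcome x' y' r q o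

/-- The cost `⌈log₂ m⌉`. -/
def cost : ℕ := Nat.clog 2 P.m

/-- `P` is an unambiguous zero-information protocol for `f`. -/
def IsZAM (f : X → Y → Bool) : Prop :=
  P.Computes f ∧ P.Unambiguous f ∧ P.ZeroInformation f

end AMProtocol

/-- `ZAM(f)`: the minimum cost of an unambiguous zero-information protocol for `f`. -/
noncomputable def ZAM {X Y : Type} (f : X → Y → Bool) : ℕ :=
  sInf {c : ℕ | ∃ P : AMProtocol X Y, P.IsZAM f ∧ P.cost = c}

/-- `INDEX_n (x, y) = x_y`. -/
def INDEX (n : ℕ) : (Fin n → Bool) → Fin n → Bool := fun x y => x y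

end V11223.ZAM
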