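import Pool.Agent.V11223.ZAM.Defs

/-!
# The abstract protocol

If Alice has functions `F_x : W → Z` (finite abelian groups), Bob has shifts `b_y ∈ W` and
additive tests `χ_{y,w} : Z → 𝔽₂` with `χ_{y,w}(F_x(w) - F_x(w - b_y)) = f(x,y)`, then `f` has
an unambiguous zero-information AM protocol with `2 |W| |Z|` rectangles.
-/

namespace V11223.ZAM

open Classical

section

variable {X Y W Z : Type} [AddCommGroup W] [AddCommGroup Z]

/-- the coins accepted by the index `(μ, w, z)` -/
noncomputable def Phi (F : X → W → Z) (b : Y → W) (χ : Y → W → Z →+ ZMod 2) (x : X) (y : Y)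
    (i : Bool × W × Z) : Z × (W × ZMod 2) :=
  (i.2.2 + F x i.2.1,
    (i.2.1 + (if i.1 then b y else 0),
      χ y (i.2.1 + (if i.1 then b y else 0)) i.2.2))

theorem Phi_inj (F : X → W → Z) (b : Y → W) (χ : Y → W → Z →+ ZMod 2) (x : X) (y : Y)
    (h : ∀ w, χ y w (F x w - F x (w - b y)) = 1) :
    Function.Injective (Phi F b χ x y) := by
  have key : ∀ w z w' z', Phi F b χ x y (false, w, z) ≠ Phi F b χ x y (true, w', z') := by
    intro w z w' z' he
    simp only [Phi, Prod.mk.injEq] at he
    obtain ⟨h1, h2, h3⟩ := he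
    simp only [Bool.false_eq_true, if_false, add_zero, if_true] at h2 h3
    have h4 : z' - z = F x w - F x (w - b y) := by
      have : w - b y = w' := by rw [h2]; abel
      rw [this]
      have := h1
      rw [← sub_eq_zero] at this ⊢
      rw [← neg_eq_zero] at this
      rw [← this]; abel
    have h5 := h w
    rw [← h4, map_sub, h3, ← h2, sub_self] at h5
    exact zero_ne_one h5
  rintro ⟨μ, w, z⟩ ⟨μ', w', z'⟩ he
  cases μ <;> cases μ'
  · simp only [Phi, Prod.mk.injEq, Bool.false_eq_true, if_false, add_zero] at he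
    obtain ⟨h1, h2, -⟩ := he
    subst h2
    rw [add_right_cancel h1]
  · exact absurd he (key _ _ _ _)
  · exact absurd he.symm (key _ _ _ _)
  · simp only [Phi, Prod.mk.injEq, if_true] at he
    obtain ⟨h1, h2, -⟩ := he
    have := add_right_cancel h2
    subst this
    rw [add_right_cancel h1]

theorem Phi_two (F : X → W → Z) (b : Y → W) (χ : Y → W → Z →+ ZMod 2) (x : X) (y : Y)
    (h : ∀ w, χ y w (F x w - F x (w - b y)) = 0) (i : Bool × W × Z) :
    ∃ p : W × Z, Phi F b χ x y i = Phi F b χ x y (false, p) := by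
  obtain ⟨μ, w, z⟩ := i
  cases μ
  · exact ⟨(w, z), rfl⟩
  · refine ⟨(w + b y, z + F x w - F x (w + b y)), ?_⟩
    simp only [Phi, Bool.false_eq_true, if_false, if_true, add_zero, Prod.mk.injEq]
    refine ⟨by abel, trivial, ?_⟩
    have h1 := h (w + b y)
    rw [add_sub_cancel_right] at h1
    have h2 : z + F x w - F x (w + b y) = z - (F x (w + b y) - F x w) := by abel
    rw [h2, map_sub, h1, sub_zero]

end

theorem exists_protocol {X Y : Type} (f : X → Y → Bool) (W Z : Type) [AddCommGroup W]
    [AddCommGroup Z] [Finite W] [Finite Z] (F : X → W → Z) (b : Y → W)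
    (χ : Y → W → Z →+ ZMod 2)
    (h : ∀ x y w, χ y w (F x w - F x (w - b y)) = if f x y then 1 else 0) :
    ∃ P : AMProtocol X Y, P.IsZAM f ∧ P.m = 2 * Nat.card W * Nat.card Z := by
  have e : Bool × W × Z ≃ Fin (Nat.card (Bool × W × Z)) := Finite.equivFin _
  have hcard : Nat.card (Bool × W × Z) = 2 * Nat.card W * Nat.card Z := by
    rw [Nat.card_prod, Nat.card_prod]
    simp [Nat.card_eq_fintype_card, mul_assoc]
  have hcard2 : Nat.card (Z × (W × ZMod 2)) = 2 * Nat.card W * Nat.card Z := by
    rw [Nat.card_prod, Nat.card_prod]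
    have : Nat.card (ZMod 2) = 2 := by simp [Nat.card_eq_fintype_card]
    rw [this]; ring
  have hWpos : 0 < Nat.card W := Nat.card_pos
  have hZpos : 0 < Nat.card Z := Nat.card_pos
  let P : AMProtocol X Y :=
    { m := Nat.card (Bool × W × Z)
      R := Z
      Q := W × ZMod 2
      finR := inferInstance
      finQ := inferInstance
      neR := ⟨0⟩
      neQ := ⟨0⟩
      A := fun i => {p | (e.symm i).2.2 + F p.1 (e.symm i).2.1 = p.2}
      B := fun i => {p | ((e.symm i).2.1 + (if (e.symm i).1 then b p.1 else 0),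
        χ p.1 ((e.symm i).2.1 + (if (e.symm i).1 then b p.1 else 0)) (e.symm i).2.2) = p.2} }
  have hrect : ∀ x y r q (i : Fin P.m), ((x, r), (y, q)) ∈ P.rect i ↔
      Phi F b χ x y (e.symm i) = (r, q) := by
    intro x y r q i
    simp only [AMProtocol.rect, Set.mem_prod, P, Set.mem_setOf_eq, Phi, Prod.mk.injEq]
  have hbij : ∀ x y, f x y = true → Function.Bijective (Phi F b χ x y) := by
    intro x y hf
    have hinj : Function.Injective (Phi F b χ x y) := by
      apply Phi_inj
      intro w
      rw [h, hf]; simp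
    exact (Nat.bijective_iff_injective_and_card _).2 ⟨hinj, by rw [hcard, hcard2]⟩
  have hprob1 : ∀ x y, f x y = true → P.accProb x y = 1 := by
    intro x y hf
    have h1 : ∀ r q, ∃ i, ((x, r), (y, q)) ∈ P.rect i := by
      intro r q
      obtain ⟨i, hi⟩ := (hbij x y hf).2 (r, q)
      refine ⟨e i, ?_⟩
      rw [hrect, e.symm_apply_apply, hi]
    unfold AMProtocol.accProb AMProtocol.prob
    have h2 : Nat.card {p : P.R × P.Q // ∃ i, ((x, p.1), (y, p.2)) ∈ P.rect i} =
        Nat.card (P.R × P.Q) := by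
      apply Nat.card_congr
      exact Equiv.subtypeUnivEquiv (fun p => h1 p.1 p.2)
    rw [h2]
    apply div_self
    have : Nat.card (P.R × P.Q) = 2 * Nat.card W * Nat.card Z := hcard2
    rw [this]
    positivity
  have hprob0 : ∀ x y, f x y = false → P.accProb x y ≤ 1 / 2 := by
    intro x y hf
    have h0 : ∀ w, χ y w (F x w - F x (w - b y)) = 0 := by
      intro w; rw [h, hf]; simp
    unfold AMProtocol.accProb AMProtocol.prob
    have h2 : Nat.card {p : P.R × P.Q // ∃ i, ((x, p.1), (y, p.2)) ∈ P.rect i} ≤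
        Nat.card (W × Z) := by
      let g : {p : P.R × P.Q // ∃ i, ((x, p.1), (y, p.2)) ∈ P.rect i} → W × Z := fun p =>
        (Phi_two F b χ x y h0 (e.symm p.2.choose)).choose
      apply Nat.card_le_card_of_injective g
      intro p p' hpp
      have h3 : ∀ p : {p : P.R × P.Q // ∃ i, ((x, p.1), (y, p.2)) ∈ P.rect i},
          Phi F b χ x y (false, g p) = p.1 := by
        intro p
        have h4 := (Phi_two F b χ x y h0 (e.symm p.2.choose)).choose_spec
        have h5 := (hrect x y _ _ _).1 p.2.choose_spec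
        exact h4.symm.trans h5
      apply Subtype.ext
      rw [← h3 p, ← h3 p', hpp]
    have h3 : Nat.card (P.R × P.Q) = 2 * Nat.card W * Nat.card Z := hcard2
    rw [h3]
    rw [Nat.card_prod] at h2
    have h4 : (0 : ℚ) < ((2 * Nat.card W * Nat.card Z : ℕ) : ℚ) := by
      have : 0 < 2 * Nat.card W * Nat.card Z := by positivity
      exact_mod_cast this
    rw [div_le_div_iff₀ h4 (by norm_num)]
    have h5 : ((Nat.card {p : P.R × P.Q // ∃ i, ((x, p.1), (y, p.2)) ∈ P.rect i} : ℕ) : ℚ) ≤
      ((Nat.card W * Nat.card Z : ℕ) : ℚ) := by exact_mod_cast h2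
    push_cast at h5 ⊢
    linarith
  refine ⟨P, ⟨⟨hprob1, hprob0⟩, ?_, ?_⟩, hcard⟩
  · intro x y hf r q i j hi hj
    rw [hrect] at hi hj
    exact e.symm.injective ((hbij x y hf).1 (hi.trans hj.symm))
  · have hone : ∀ x y (i : Fin P.m), (P.prob fun r q => P.IsOutcome x y r q (some i)) =
        1 / (Nat.card (P.R × P.Q) : ℚ) := by
      intro x y i
      unfold AMProtocol.prob AMProtocol.IsOutcome
      have : Nat.card {p : P.R × P.Q // ((x, p.1), (y, p.2)) ∈ P.rect i} = 1 := by
        rw [Nat.card_eq_one_iff_unique]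
        refine ⟨⟨fun a c => ?_⟩, ⟨⟨Phi F b χ x y (e.symm i), ?_⟩⟩⟩
        · apply Subtype.ext
          have ha := (hrect x y _ _ _).1 a.2
          have hc := (hrect x y _ _ _).1 c.2
          exact ha.symm.trans hc
        · rw [hrect]
      rw [this]
      norm_num
    have hnone : ∀ x y, f x y = true →
        (P.prob fun r q => P.IsOutcome x y r q none) = 0 := by
      intro x y hf
      unfold AMProtocol.prob AMProtocol.IsOutcome
      have : Nat.card {p : P.R × P.Q // ∀ i, ((x, p.1), (y, p.2)) ∉ P.rect i} = 0 := by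
        rw [Nat.card_eq_zero]
        left
        refine ⟨fun a => ?_⟩
        obtain ⟨i, hi⟩ := (hbij x y hf).2 (a.1.1, a.1.2)
        apply a.2 (e i)
        rw [hrect, e.symm_apply_apply, hi]
      rw [this]
      norm_num
    intro x y x' y' hf hf' o
    cases o with
    | none => rw [hnone x y hf, hnone x' y' hf']
    | some i => rw [hone x y i, hone x' y' i]

end V11223.ZAM
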